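import Pool.Agent.Helper56.UN.St

/-!
# Project UN, module RT
-/

set_option autoImplicit false

open Set Filter Topology
open scoped ComplexConjugate

noncomputable section

namespace Pool.Agent.Helper32.UN

open Pool.Agent.Helper56.UN Pool.Agent.Helper71.UN
open Pool.Agent.Helper56.FM (Gq)

private theorem rt_im (b g : ℂ) (x₁ y₁ x₂ y₂ : ℚ) :
    ((b * ((x₂ : ℂ) + (y₂ : ℂ) * g)) * conj (b * ((x₁ : ℂ) + (y₁ : ℂ) * g))).im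
      = Complex.normSq b * g.im * ((x₁ * y₂ - x₂ * y₁ : ℚ) : ℝ) := by
  simp only [map_mul, map_add, Complex.mul_im, Complex.mul_re, Complex.add_re, Complex.add_im,
    Complex.conj_re, Complex.conj_im, Complex.ratCast_re, Complex.ratCast_im, Complex.normSq_apply]
  push_cast
  ring

theorem m_RT : StRT := by
  intro β hβ j u₁ u₂ w h₁ h₂ hw him
  obtain ⟨x₁, y₁, rfl⟩ := h₁
  obtain ⟨x₂, y₂, rfl⟩ := h₂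
  obtain ⟨x, y, rfl⟩ := hw
  rw [rt_im] at him
  have hD : x₁ * y₂ - x₂ * y₁ ≠ 0 := by
    intro h
    rw [h] at him
    simp at him
  have hDc : (x₁ : ℂ) * (y₂ : ℂ) - (x₂ : ℂ) * (y₁ : ℂ) ≠ 0 := by
    exact_mod_cast hD
  refine ⟨(x * y₂ - x₂ * y) / (x₁ * y₂ - x₂ * y₁), (x * y₁ - x₁ * y) / (x₁ * y₂ - x₂ * y₁), ?_⟩
  push_cast
  have e1 : (x : ℂ) = (((x : ℂ) * (y₂ : ℂ) - (x₂ : ℂ) * (y : ℂ)) / ((x₁ : ℂ) * (y₂ : ℂ) - (x₂ : ℂ) * (y₁ : ℂ))) * (x₁ : ℂ)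
      - (((x : ℂ) * (y₁ : ℂ) - (x₁ : ℂ) * (y : ℂ)) / ((x₁ : ℂ) * (y₂ : ℂ) - (x₂ : ℂ) * (y₁ : ℂ))) * (x₂ : ℂ) := by
    rw [div_mul_eq_mul_div, div_mul_eq_mul_div, ← sub_div, eq_div_iff hDc]
    ring
  have e2 : (y : ℂ) = (((x : ℂ) * (y₂ : ℂ) - (x₂ : ℂ) * (y : ℂ)) / ((x₁ : ℂ) * (y₂ : ℂ) - (x₂ : ℂ) * (y₁ : ℂ))) * (y₁ : ℂ)
      - (((x : ℂ) * (y₁ : ℂ) - (x₁ : ℂ) * (y : ℂ)) / ((x₁ : ℂ) * (y₂ : ℂ) - (x₂ : ℂ) * (y₁ : ℂ))) * (y₂ : ℂ) := by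
    rw [div_mul_eq_mul_div, div_mul_eq_mul_div, ← sub_div, eq_div_iff hDc]
    ring
  generalize (((x : ℂ) * (y₂ : ℂ) - (x₂ : ℂ) * (y : ℂ)) / ((x₁ : ℂ) * (y₂ : ℂ) - (x₂ : ℂ) * (y₁ : ℂ))) = l at *
  generalize (((x : ℂ) * (y₁ : ℂ) - (x₁ : ℂ) * (y : ℂ)) / ((x₁ : ℂ) * (y₂ : ℂ) - (x₂ : ℂ) * (y₁ : ℂ))) = m at *
  rw [e1, e2]
  ring

end Pool.Agent.Helper32.UN
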